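import Pool.Agent.R732.Unif.Defs

/-!
# Sets of non-dominating elements have a Borel 3-colouring
-/

set_option autoImplicit false

open Set

namespace Pool.Agent.R732.Unif

/-- Infinitely often two consecutive elements lie in the same block of `b`. -/
def Rec (b : ℕ → ℕ) : Set InfSet :=
  {y | ∀ N, ∃ n, N ≤ n ∧ b (el y n) = b (el y (n + 1))}

/-- The first two elements lie in one block, the third one does not. -/
def Q (b : ℕ → ℕ) : Set InfSet :=
  {y | b (el y 0) = b (el y 1) ∧ b (el y 1) ≠ b (el y 2)}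

theorem measurable_beq (b : ℕ → ℕ) (i j : ℕ) :
    MeasurableSet {y : InfSet | b (el y i) = b (el y j)} := by
  have h1 : Measurable fun y : InfSet => b (el y i) := (measurable_of_countable b).comp (measurable_el i)
  have h2 : Measurable fun y : InfSet => b (el y j) := (measurable_of_countable b).comp (measurable_el j)
  exact measurableSet_eq_fun h1 h2

theorem measurable_Q (b : ℕ → ℕ) : MeasurableSet (Q b) :=
  (measurable_beq b 0 1).inter (measurable_beq b 1 2).compl

theorem measurable_Rec (b : ℕ → ℕ) : MeasurableSet (Rec b) := by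
  have : Rec b = ⋂ N : ℕ, ⋃ n : ℕ, {y : InfSet | N ≤ n} ∩ {y | b (el y n) = b (el y (n + 1))} := by
    ext y
    simp [Rec]
  rw [this]
  exact MeasurableSet.iInter fun N => MeasurableSet.iUnion fun n =>
    (MeasurableSet.const _).inter (measurable_beq b _ _)

theorem rec_shift (b : ℕ → ℕ) (y : InfSet) : shift y ∈ Rec b ↔ y ∈ Rec b := by
  constructor
  · intro h N
    obtain ⟨n, hn, he⟩ := h N
    refine ⟨n + 1, by omega, ?_⟩
    rw [el_shift, el_shift] at he
    exact he
  · intro h N
    obtain ⟨n, hn, he⟩ := h (N + 1)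
    obtain ⟨m, rfl⟩ : ∃ m, n = m + 1 := ⟨n - 1, by omega⟩
    refine ⟨m, by omega, ?_⟩
    rw [el_shift, el_shift]
    exact he

theorem rec_hits {b : ℕ → ℕ} (hb : ∀ M, ∃ N, ∀ m, N ≤ m → M < b m) {y : InfSet} (hy : y ∈ Rec b)
    (N : ℕ) : ∃ n, N ≤ n ∧ shift^[n] y ∈ Q b := by
  obtain ⟨n0, hn0, he⟩ := hy N
  by_contra hcon
  push Not at hcon
  have key : ∀ k, b (el y (n0 + k)) = b (el y n0) ∧ b (el y (n0 + k + 1)) = b (el y n0) := by
    intro k
    induction k with
    | zero => exact ⟨rfl, he.symm⟩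
    | succ k ih =>
      refine ⟨ih.2, ?_⟩
      have h := hcon (n0 + k) (by omega)
      simp only [Q, mem_ofPred_eq, el_iterate, not_and, not_not] at h
      have h2 := h (by rw [Nat.add_zero, ih.1, ih.2])
      have : n0 + (k + 1) + 1 = n0 + k + 2 := by ring
      rw [this, ← h2, ih.2]
  obtain ⟨M, hM⟩ := hb (b (el y n0))
  have h1 := hM (el y (n0 + M)) (le_trans (by omega) (le_el y (n0 + M)))
  rw [(key M).1] at h1
  exact lt_irrefl _ h1

theorem colour_rec {b : ℕ → ℕ} (hb : ∀ M, ∃ N, ∀ m, N ≤ m → M < b m) {y : InfSet}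
    (hy : y ∈ Rec b) : colour (hit (Q b) (shift y)) ≠ colour (hit (Q b) y) := by
  apply colour_hit_ne
  · intro h1 h2
    have h3 : b (el (shift y) 0) = b (el (shift y) 1) := h2.1
    rw [el_shift, el_shift] at h3
    exact h1.2 h3
  · obtain ⟨n, hn, h⟩ := rec_hits hb hy 1
    obtain ⟨m, rfl⟩ : ∃ m, n = m + 1 := ⟨n - 1, by omega⟩
    exact ⟨m, h⟩

/-- Two recurrence sets together are 3-colourable. -/
theorem colorable_of_two {b b' : ℕ → ℕ} (hb : ∀ M, ∃ N, ∀ m, N ≤ m → M < b m)
    (hb' : ∀ M, ∃ N, ∀ m, N ≤ m → M < b' m) {A : Set InfSet} (hA : A ⊆ Rec b ∪ Rec b') :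
    BorelColorable A 3 := by
  classical
  let c : InfSet → Fin 3 := fun y =>
    if y ∈ Rec b then colour (hit (Q b) y) else colour (hit (Q b') y)
  have hc : Measurable c :=
    Measurable.ite (measurable_Rec b)
      ((measurable_of_countable colour).comp (measurable_hit (measurable_Q b)))
      ((measurable_of_countable colour).comp (measurable_hit (measurable_Q b')))
  have key : ∀ y : InfSet, y ∈ A → c (shift y) ≠ c y := by
    intro y hy
    by_cases h : y ∈ Rec b
    · have h' : shift y ∈ Rec b := (rec_shift b y).2 h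
      simp only [c, if_pos h, if_pos h']
      exact colour_rec hb h
    · have h' : shift y ∉ Rec b := fun h2 => h ((rec_shift b y).1 h2)
      simp only [c, if_neg h, if_neg h']
      exact colour_rec hb' ((hA hy).resolve_left h)
  refine ⟨fun y => c y.1, hc.comp measurable_subtype_coe, ?_⟩
  rintro ⟨y, hy⟩ ⟨z, hz⟩ (h | h)
  · simp only at h
    subst h
    exact (key y hy).symm
  · simp only at h
    subst h
    exact key z hz

/-! ### The interval partition attached to a function -/

/-- The monotone majorant. -/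
def maj (g : ℕ → ℕ) (m : ℕ) : ℕ := (Finset.range (m + 2)).sup g

theorem le_maj (g : ℕ → ℕ) {j m : ℕ} (h : j ≤ m + 1) : g j ≤ maj g m :=
  Finset.le_sup (f := g) (Finset.mem_range.2 (by omega))

theorem maj_mono (g : ℕ → ℕ) {m m' : ℕ} (h : m ≤ m') : maj g m ≤ maj g m' :=
  Finset.sup_mono (Finset.range_mono (by omega))

/-- End points of the intervals. -/
def ends (g : ℕ → ℕ) : ℕ → ℕ
  | 0 => 0
  | k + 1 => max (ends g k) (maj g (ends g k)) + 1

theorem ends_lt (g : ℕ → ℕ) (k : ℕ) : ends g k < ends g (k + 1) := by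
  show ends g k < max (ends g k) (maj g (ends g k)) + 1
  omega

theorem ends_mono (g : ℕ → ℕ) : StrictMono (ends g) := strictMono_nat_of_lt_succ (ends_lt g)

theorem le_ends (g : ℕ → ℕ) (k : ℕ) : k ≤ ends g k := (ends_mono g).le_apply

theorem maj_lt_ends (g : ℕ → ℕ) {m k : ℕ} (h : m ≤ ends g k) : maj g m < ends g (k + 1) := by
  have := maj_mono g h
  show maj g m < max (ends g k) (maj g (ends g k)) + 1
  omega

/-- The index of the interval containing `m`. -/
def idx (g : ℕ → ℕ) (m : ℕ) : ℕ := Nat.findGreatest (fun k => ends g k ≤ m) m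

theorem ends_idx_le (g : ℕ → ℕ) (m : ℕ) : ends g (idx g m) ≤ m := by
  unfold idx
  exact Nat.findGreatest_spec (P := fun k => ends g k ≤ m) (Nat.zero_le m) (Nat.zero_le m)

theorem lt_ends_idx (g : ℕ → ℕ) (m : ℕ) : m < ends g (idx g m + 1) := by
  by_contra h
  rw [not_lt] at h
  have h1 : idx g m + 1 ≤ m := le_trans (le_ends g _) h
  have := Nat.le_findGreatest (P := fun k => ends g k ≤ m) h1 h
  unfold idx at this
  omega

theorem idx_mono (g : ℕ → ℕ) {m m' : ℕ} (h : m ≤ m') : idx g m ≤ idx g m' := by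
  by_contra hcon
  rw [not_le] at hcon
  have h1 := ends_idx_le g m
  have h2 := lt_ends_idx g m'
  have h3 : ends g (idx g m' + 1) ≤ ends g (idx g m) := (ends_mono g).monotone hcon
  omega

theorem idx_large (g : ℕ → ℕ) (M : ℕ) : ∃ N, ∀ m, N ≤ m → M < idx g m := by
  refine ⟨ends g (M + 1), fun m hm => ?_⟩
  by_contra hcon
  rw [not_lt] at hcon
  have h2 := lt_ends_idx g m
  have h3 : ends g (idx g m + 1) ≤ ends g (M + 1) := (ends_mono g).monotone (by omega)
  omega

theorem idx_step (g : ℕ → ℕ) {m m' : ℕ} (h : m' ≤ maj g m) : idx g m' ≤ idx g m + 1 := by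
  by_contra hcon
  rw [not_le] at hcon
  have h1 := ends_idx_le g m'
  have h2 := lt_ends_idx g m
  have h3 := maj_lt_ends g h2.le
  have h4 : ends g (idx g m + 1 + 1) ≤ ends g (idx g m') := (ends_mono g).monotone hcon
  omega

/-- The set of all `y` that are infinitely often below `g` has a Borel 3-colouring. -/
theorem colorable_nondominating (g : ℕ → ℕ) {A : Set InfSet}
    (hA : ∀ y ∈ A, ∀ N, ∃ j, N ≤ j ∧ el y j < g j) : BorelColorable A 3 := by
  have hb0 : ∀ M, ∃ N, ∀ m, N ≤ m → M < (fun m => idx g m / 2) m := by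
    intro M
    obtain ⟨N, hN⟩ := idx_large g (2 * M + 2)
    exact ⟨N, fun m hm => by have := hN m hm; simp only; omega⟩
  have hb1 : ∀ M, ∃ N, ∀ m, N ≤ m → M < (fun m => (idx g m + 1) / 2) m := by
    intro M
    obtain ⟨N, hN⟩ := idx_large g (2 * M + 2)
    exact ⟨N, fun m hm => by have := hN m hm; simp only; omega⟩
  refine colorable_of_two hb0 hb1 ?_
  intro y hy
  by_contra hcon
  simp only [mem_union, not_or, Rec, mem_ofPred_eq, not_forall, not_exists, not_and] at hcon
  obtain ⟨⟨N0, h0⟩, ⟨N1, h1⟩⟩ := hcon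
  obtain ⟨j, hj, hlt⟩ := hA y hy (N0 + N1 + 1)
  obtain ⟨n, rfl⟩ : ∃ n, j = n + 1 := ⟨j - 1, by omega⟩
  have e0 := h0 n (by omega)
  have e1 := h1 n (by omega)
  have hle : n + 1 ≤ el y n + 1 := by have := le_el y n; omega
  have h3 := le_maj g hle
  have h4 := idx_step g (m := el y n) (m' := el y (n + 1)) (by omega)
  have h5 := idx_mono g (el_lt_succ y n).le
  omega

end Pool.Agent.R732.Unif
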