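import Mathlib

/-!
# The shift graph on infinite sets of natural numbers: definitions and a colouring lemma
-/

set_option autoImplicit false

open Set

namespace Pool.Agent.R732.Unif

/-- The space of infinite subsets of the natural numbers, as a subspace of the power set
of `ℕ` (i.e. of `2 ^ ℕ`), with the inherited Borel sigma-algebra. -/
abbrev InfSet : Type := {y : Set ℕ // y.Infinite}

/-- The least element of an infinite set of natural numbers. -/
noncomputable def mn (y : InfSet) : ℕ := sInf y.1

/-- The shift map `S`, which removes the least element. -/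
noncomputable def shift (y : InfSet) : InfSet :=
  ⟨y.1 \ {sInf y.1}, y.2.sdiff (Set.finite_singleton _)⟩

/-- Adjacency in the shift graph. -/
def ShiftAdj (y z : InfSet) : Prop := z = shift y ∨ y = shift z

/-- The subgraph of the shift graph induced on `A` has a Borel proper colouring with
`k` colours. -/
def BorelColorable (A : Set InfSet) (k : ℕ) : Prop :=
  ∃ c : A → Fin k, Measurable c ∧ ∀ y z : A, ShiftAdj y.1 z.1 → c y ≠ c z

/-- The `j`-th element of an infinite set. -/
noncomputable def el (y : InfSet) (j : ℕ) : ℕ := mn (shift^[j] y)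

theorem mn_mem (y : InfSet) : mn y ∈ y.1 := Nat.sInf_mem y.2.nonempty

theorem mn_le (y : InfSet) {a : ℕ} (ha : a ∈ y.1) : mn y ≤ a := Nat.sInf_le ha

theorem mem_shift (y : InfSet) (a : ℕ) : a ∈ (shift y).1 ↔ a ∈ y.1 ∧ a ≠ mn y := by
  simp [shift, mn]

theorem mn_lt_mn_shift (y : InfSet) : mn y < mn (shift y) := by
  have h := mn_mem (shift y)
  rw [mem_shift] at h
  exact lt_of_le_of_ne (mn_le y h.1) (Ne.symm h.2)

theorem el_lt_succ (y : InfSet) (j : ℕ) : el y j < el y (j + 1) := by
  unfold el
  rw [Function.iterate_succ_apply']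
  exact mn_lt_mn_shift _

theorem le_el (y : InfSet) (j : ℕ) : j ≤ el y j := by
  induction j with
  | zero => exact Nat.zero_le _
  | succ j ih => exact lt_of_le_of_lt ih (el_lt_succ y j)

theorem el_mono (y : InfSet) : StrictMono (el y) := strictMono_nat_of_lt_succ (el_lt_succ y)

theorem el_shift (y : InfSet) (j : ℕ) : el (shift y) j = el y (j + 1) := by
  unfold el
  rw [Function.iterate_succ_apply]

theorem el_iterate (y : InfSet) (n j : ℕ) : el (shift^[n] y) j = el y (n + j) := by
  unfold el
  rw [← Function.iterate_add_apply, Nat.add_comm]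

theorem measurable_mem (a : ℕ) : MeasurableSet {y : InfSet | a ∈ y.1} := by
  have h : Measurable (fun y : InfSet => y.1) := measurable_subtype_coe
  have h2 : MeasurableSet {s : Set ℕ | a ∈ s} := measurableSet_setOfPred.2 (measurable_set_mem a)
  exact h h2

theorem measurable_mn : Measurable mn := by
  refine measurable_to_countable' (fun m => ?_)
  have : mn ⁻¹' {m} = {y : InfSet | m ∈ y.1} ∩ ⋂ i : Fin m, {y : InfSet | (i : ℕ) ∈ y.1}ᶜ := by
    ext y
    simp only [mem_preimage, mem_singleton_iff, mem_inter_iff, mem_ofPred_eq, mem_iInter,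
      mem_compl_iff]
    constructor
    · rintro rfl
      exact ⟨mn_mem y, fun i hi => absurd (mn_le y hi) (not_le.2 i.2)⟩
    · rintro ⟨h1, h2⟩
      refine le_antisymm (mn_le y h1) (not_lt.1 fun hlt => h2 ⟨mn y, hlt⟩ (mn_mem y))
  rw [this]
  exact (measurable_mem m).inter (MeasurableSet.iInter fun i => (measurable_mem _).compl)

theorem measurable_shift : Measurable shift := by
  refine Measurable.subtype_mk ?_
  rw [measurable_set_iff]
  intro a
  apply measurableSet_setOfPred.1
  have : {y : InfSet | a ∈ y.1 \ {sInf y.1}} = {y : InfSet | a ∈ y.1} ∩ (mn ⁻¹' {a})ᶜ := by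
    ext y
    simp only [mem_ofPred_eq, mem_sdiff, mem_singleton_iff, mem_inter_iff, mem_compl_iff,
      mem_preimage, mn]
    constructor
    · rintro ⟨h1, h2⟩
      exact ⟨h1, fun h => h2 h.symm⟩
    · rintro ⟨h1, h2⟩
      exact ⟨h1, fun h => h2 h.symm⟩
  rw [this]
  exact (measurable_mem a).inter (measurable_mn (measurableSet_singleton a)).compl

theorem measurable_iter (n : ℕ) : Measurable (shift^[n]) := measurable_shift.iterate n

theorem measurable_el (j : ℕ) : Measurable (fun y => el y j) :=
  measurable_mn.comp (measurable_iter j)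

/-! ### First hitting times and three colours -/

/-- First hitting time of `Q` along the forward orbit. -/
noncomputable def hit (Q : Set InfSet) (y : InfSet) : ℕ := sInf {n | shift^[n] y ∈ Q}

theorem measurable_hit {Q : Set InfSet} (hQ : MeasurableSet Q) : Measurable (hit Q) := by
  have hm : ∀ n, MeasurableSet {y : InfSet | shift^[n] y ∈ Q} := fun n => measurable_iter n hQ
  refine measurable_to_countable' (fun m => ?_)
  have : hit Q ⁻¹' {m} =
      ({y : InfSet | shift^[m] y ∈ Q} ∩ ⋂ i : Fin m, {y : InfSet | shift^[(i : ℕ)] y ∈ Q}ᶜ) ∪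
      ((⋂ n : ℕ, {y : InfSet | shift^[n] y ∈ Q}ᶜ) ∩ {_y | m = 0}) := by
    ext y
    simp only [mem_preimage, mem_singleton_iff, mem_union, mem_inter_iff, mem_ofPred_eq,
      mem_iInter, mem_compl_iff, hit]
    constructor
    · rintro rfl
      by_cases hne : {n | shift^[n] y ∈ Q}.Nonempty
      · left
        refine ⟨Nat.sInf_mem hne, fun i hi => ?_⟩
        exact absurd (Nat.sInf_le hi) (not_le.2 i.2)
      · right
        rw [Set.not_nonempty_iff_eq_empty] at hne
        refine ⟨fun n hn => ?_, by rw [hne]; exact Nat.sInf_empty⟩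
        have : n ∈ {n | shift^[n] y ∈ Q} := hn
        rw [hne] at this
        exact this
    · rintro (⟨h1, h2⟩ | ⟨h1, h2⟩)
      · refine le_antisymm (Nat.sInf_le h1) (not_lt.1 fun hlt => ?_)
        exact h2 ⟨_, hlt⟩ (Nat.sInf_mem (s := {n | shift^[n] y ∈ Q}) ⟨m, h1⟩)
      · subst h2
        have : {n | shift^[n] y ∈ Q} = ∅ := by
          ext n
          simp [h1 n]
        rw [this]
        exact Nat.sInf_empty
  rw [this]
  exact ((hm m).inter (MeasurableSet.iInter fun i => (hm _).compl)).union
    ((MeasurableSet.iInter fun n => (hm n).compl).inter (MeasurableSet.const _))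

/-- The colour attached to a hitting time. -/
def colour (n : ℕ) : Fin 3 := if n = 0 then 2 else if n % 2 = 0 then 0 else 1

theorem colour_succ (n : ℕ) : colour (n + 1) ≠ colour n := by
  unfold colour
  rcases Nat.eq_zero_or_pos n with rfl | hn
  · decide
  · have h1 : n ≠ 0 := by omega
    simp only [Nat.succ_ne_zero, if_false, h1]
    rcases Nat.mod_two_eq_zero_or_one n with h | h
    · have : (n + 1) % 2 = 1 := by omega
      simp [h, this]
    · have : (n + 1) % 2 = 0 := by omega
      simp [h, this]

/-- Along a forward step the colour changes, if `Q` is independent and recurrent. -/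
theorem colour_hit_ne {Q : Set InfSet} {y : InfSet} (hind : y ∈ Q → shift y ∉ Q)
    (hrec : ∃ n, shift^[n + 1] y ∈ Q) : colour (hit Q (shift y)) ≠ colour (hit Q y) := by
  obtain ⟨n, hn⟩ := hrec
  have hne : {n | shift^[n] (shift y) ∈ Q}.Nonempty :=
    ⟨n, by rw [mem_ofPred_eq, ← Function.iterate_succ_apply]; exact hn⟩
  by_cases hy : y ∈ Q
  · have h0 : hit Q y = 0 := by
      have : (0 : ℕ) ∈ {n | shift^[n] y ∈ Q} := hy
      exact Nat.le_zero.1 (Nat.sInf_le this)
    have h1 : hit Q (shift y) ≠ 0 := by
      intro h
      have := Nat.sInf_mem hne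
      unfold hit at h
      rw [h] at this
      exact hind hy this
    rw [h0]
    unfold colour
    simp only [h1, if_false, if_true]
    split_ifs <;> decide
  · have h1 : hit Q y = hit Q (shift y) + 1 := by
      have hmem := Nat.sInf_mem hne
      have hle : hit Q y ≤ hit Q (shift y) + 1 := by
        apply Nat.sInf_le
        show shift^[hit Q (shift y) + 1] y ∈ Q
        rw [Function.iterate_succ_apply]
        exact hmem
      have hne2 : {n | shift^[n] y ∈ Q}.Nonempty := ⟨n + 1, hn⟩
      have hmem2 : shift^[hit Q y] y ∈ Q := Nat.sInf_mem hne2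
      have hpos : hit Q y ≠ 0 := by
        intro h
        rw [h] at hmem2
        exact hy hmem2
      obtain ⟨m, hm⟩ := Nat.exists_eq_succ_of_ne_zero hpos
      rw [hm] at hmem2
      have : hit Q (shift y) ≤ m := by
        apply Nat.sInf_le
        show shift^[m] (shift y) ∈ Q
        rw [← Function.iterate_succ_apply]
        exact hmem2
      omega
    rw [h1]
    exact (colour_succ _).symm

end Pool.Agent.R732.Unif
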