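import Pool.Agent.R732.Unif.Trees

/-!
# A Borel family of 3-colourable sections whose complement has no Borel uniformization
-/

set_option autoImplicit false

open Set Filter Topology

namespace Pool.Agent.R732.Unif

/-- The function with finite support coded by a list. -/
def gl (l : List ℕ) : ℕ → ℕ := fun j => l.getD j 0

/-- `y` bounds (up to the constant `k`) functions that are monotone maps on any given finite
part of the `i`-th tree into the `i'`-th tree. -/
def Cond (i i' k : ℕ) (p : (ℕ → ℕ) × InfSet) : Prop :=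
  ∀ F : Finset (List ℕ), ∃ l : List ℕ, (∀ j, gl l j ≤ max (el p.2 j) k) ∧
    ∀ t ∈ F, InT i p.1 t → InT i' p.1 (ph (gl l) t)

/-- The complement of the example. -/
def P : Set ((ℕ → ℕ) × InfSet) := {p | (∃ k, Cond 0 1 k p) ∨ ∃ k, Cond 1 0 k p}

theorem measurable_rin (k : ℕ) : ∀ u : List ℕ, MeasurableSet {x : ℕ → ℕ | rin x k = u} := by
  induction k with
  | zero => intro u; exact MeasurableSet.const (([] : List ℕ) = u)
  | succ k ih =>
    intro u
    cases u with
    | nil =>
      have : {x : ℕ → ℕ | rin x (k + 1) = []} = ∅ := by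
        ext x; simp
      rw [this]; exact MeasurableSet.empty
    | cons n v =>
      have : {x : ℕ → ℕ | rin x (k + 1) = n :: v} =
          (fun x : ℕ → ℕ => x k) ⁻¹' {n} ∩ {x : ℕ → ℕ | rin x k = v} := by
        ext x; simp
      rw [this]
      exact (measurable_pi_apply k (measurableSet_singleton n)).inter (ih v)

theorem measurable_inT (i : ℕ) (t : List ℕ) : MeasurableSet {x : ℕ → ℕ | InT i x t} := by
  induction t with
  | nil => exact MeasurableSet.const _
  | cons n t ih =>
    have : {x : ℕ → ℕ | InT i x (n :: t)} = {x : ℕ → ℕ | InT i x t} ∩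
        ⋃ u : List ℕ, ({x : ℕ → ℕ | rin x (t.length + 1) = u} ∩
          (fun x : ℕ → ℕ => x (2 * code u (n :: t) + i)) ⁻¹' {0}) := by
      ext x
      simp only [InT, mem_ofPred_eq, mem_inter_iff, mem_iUnion, mem_preimage, mem_singleton_iff]
      constructor
      · rintro ⟨h1, h2⟩
        exact ⟨h1, _, rfl, h2⟩
      · rintro ⟨h1, u, rfl, h2⟩
        exact ⟨h1, h2⟩
    rw [this]
    refine ih.inter (MeasurableSet.iUnion fun u => ?_)
    exact (measurable_rin _ u).inter (measurable_pi_apply _ (measurableSet_singleton 0))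

theorem measurable_cond (i i' k : ℕ) : MeasurableSet {p | Cond i i' k p} := by
  have : {p | Cond i i' k p} = ⋂ F : Finset (List ℕ), ⋃ l : List ℕ,
      ((⋂ j : ℕ, {p : (ℕ → ℕ) × InfSet | gl l j ≤ max (el p.2 j) k}) ∩
        ⋂ t : F, ({p : (ℕ → ℕ) × InfSet | InT i p.1 t.1}ᶜ ∪
          {p : (ℕ → ℕ) × InfSet | InT i' p.1 (ph (gl l) t.1)})) := by
    ext p
    simp only [Cond, mem_ofPred_eq, mem_iInter, mem_iUnion, mem_inter_iff, mem_union,
      mem_compl_iff]
    refine forall_congr' fun F => exists_congr fun l => and_congr Iff.rfl ?_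
    constructor
    · intro h t
      by_cases ht : InT i p.1 t.1
      · exact Or.inr (h t.1 t.2 ht)
      · exact Or.inl ht
    · intro h t htF ht
      exact (h ⟨t, htF⟩).resolve_left (fun hn => hn ht)
  rw [this]
  refine MeasurableSet.iInter fun F => MeasurableSet.iUnion fun l => ?_
  refine MeasurableSet.inter (MeasurableSet.iInter fun j => ?_)
    (MeasurableSet.iInter fun t => MeasurableSet.union (MeasurableSet.compl ?_) ?_)
  · have h1 : Measurable fun p : (ℕ → ℕ) × InfSet => max (el p.2 j) k :=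
      ((measurable_el j).comp measurable_snd).max measurable_const
    exact measurableSet_le measurable_const h1
  · exact measurable_fst (measurable_inT i t.1)
  · exact measurable_fst (measurable_inT i' _)

theorem measurable_P : MeasurableSet P := by
  have : P = (⋃ k, {p | Cond 0 1 k p}) ∪ ⋃ k, {p | Cond 1 0 k p} := by
    ext p; simp [P]
  rw [this]
  exact (MeasurableSet.iUnion fun k => measurable_cond 0 1 k).union
    (MeasurableSet.iUnion fun k => measurable_cond 1 0 k)

/-- Compactness: finite approximations give a full monotone map. -/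
theorem good_of_cond {i i' k : ℕ} {p : (ℕ → ℕ) × InfSet} (h : Cond i i' k p) :
    ∃ g, Good i i' p.1 g := by
  let K : Set (ℕ → ℕ) := Set.pi univ fun j => Set.Iic (max (el p.2 j) k)
  have hK : IsCompact K := isCompact_univ_pi fun j => (Set.finite_Iic _).isCompact
  let Z : List ℕ → Set (ℕ → ℕ) := fun t => {g | InT i p.1 t → InT i' p.1 (ph g t)}
  have hZ : ∀ t, IsClosed (Z t) := by
    intro t
    rw [← isOpen_compl_iff, isOpen_iff_mem_nhds]
    intro g hg
    obtain ⟨M, hM⟩ := ph_dep t
    have hopen : IsOpen (⋂ j ∈ Finset.range M, (fun g' : ℕ → ℕ => g' j) ⁻¹' {g j}) :=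
      isOpen_biInter_finset fun j _ => (continuous_apply j).isOpen_preimage _ (isOpen_discrete _)
    refine Filter.mem_of_superset (hopen.mem_nhds (by simp)) ?_
    intro g' hg'
    simp only [mem_iInter, Finset.mem_range, mem_preimage, mem_singleton_iff] at hg'
    have : ph g' t = ph g t := hM g' g hg'
    simp only [Z, mem_compl_iff, mem_ofPred_eq] at hg ⊢
    rw [this]
    exact hg
  have hne : (K ∩ ⋂ t, Z t).Nonempty := by
    apply hK.inter_iInter_nonempty Z hZ
    intro F
    obtain ⟨l, hl1, hl2⟩ := h F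
    refine ⟨gl l, fun j _ => hl1 j, ?_⟩
    simp only [mem_iInter]
    intro t ht
    exact hl2 t ht
  obtain ⟨g, _, hg⟩ := hne
  rw [mem_iInter] at hg
  exact ⟨g, fun t ht => hg t ht⟩

/-- If a full monotone map is bounded by `y` up to a constant, the condition holds. -/
theorem cond_of_good {i i' k : ℕ} {x g : ℕ → ℕ} {y : InfSet} (hg : Good i i' x g)
    (hb : ∀ j, g j ≤ max (el y j) k) : Cond i i' k (x, y) := by
  intro F
  have hM : ∃ M, ∀ t ∈ F, ∀ g' : ℕ → ℕ, (∀ j, j < M → g' j = g j) → ph g' t = ph g t := by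
    classical
    induction F using Finset.induction_on with
    | empty => exact ⟨0, by simp⟩
    | insert t F _ ih =>
      obtain ⟨M1, h1⟩ := ih
      obtain ⟨M2, h2⟩ := ph_dep t
      refine ⟨max M1 M2, fun t' ht' g' hg' => ?_⟩
      rcases Finset.mem_insert.1 ht' with rfl | ht''
      · exact h2 g' g fun j hj => hg' j (lt_of_lt_of_le hj (le_max_right _ _))
      · exact h1 t' ht'' g' fun j hj => hg' j (lt_of_lt_of_le hj (le_max_left _ _))
  obtain ⟨M, hM⟩ := hM
  have hgl : ∀ j, j < M → gl ((List.range M).map g) j = g j := by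
    intro j hj
    simp [gl, List.getD, hj]
  have hgl0 : ∀ j, ¬ j < M → gl ((List.range M).map g) j = 0 := by
    intro j hj
    simp [gl, List.getD, not_lt.1 hj]
  refine ⟨(List.range M).map g, fun j => ?_, fun t ht h1 => ?_⟩
  · by_cases hj : j < M
    · rw [hgl j hj]; exact hb j
    · rw [hgl0 j hj]; exact Nat.zero_le _
  · rw [hM t ht _ hgl]
    exact hg t h1

/-- Every section of the complement of `P` is 3-colourable. -/
theorem section_colorable (x : ℕ → ℕ) : BorelColorable {y | (x, y) ∈ Pᶜ} 3 := by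
  have key : ∃ g : ℕ → ℕ, ∀ y, (∃ k, ∀ j, g j ≤ max (el y j) k) → (x, y) ∈ P := by
    rcases good_total x with ⟨g, hg⟩ | ⟨g, hg⟩
    · exact ⟨g, fun y ⟨k, hk⟩ => Or.inl ⟨k, cond_of_good hg hk⟩⟩
    · exact ⟨g, fun y ⟨k, hk⟩ => Or.inr ⟨k, cond_of_good hg hk⟩⟩
  obtain ⟨g, hg⟩ := key
  refine colorable_nondominating g ?_
  intro y hy N
  by_contra hcon
  push Not at hcon
  refine hy (hg y ⟨(Finset.range N).sup g, fun j => ?_⟩)
  by_cases hj : j < N
  · exact le_trans (Finset.le_sup (f := g) (Finset.mem_range.2 hj)) (le_max_right _ _)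
  · exact le_trans (hcon j (not_lt.1 hj)) (le_max_left _ _)

/-- `P` has no full Borel uniformization. -/
theorem no_uniformization : ¬ ∃ f : (ℕ → ℕ) → InfSet, Measurable f ∧ ∀ x, (x, f x) ∈ P := by
  rintro ⟨f, hf, hP⟩
  let C : Set (ℕ → ℕ) := {x | ∃ k, Cond 0 1 k (x, f x)}
  have hC : MeasurableSet C := by
    have : C = ⋃ k, (fun x => (x, f x)) ⁻¹' {p | Cond 0 1 k p} := by
      ext x; simp [C]
    rw [this]
    exact MeasurableSet.iUnion fun k => (measurable_id.prodMk hf) (measurable_cond 0 1 k)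
  obtain ⟨a0, ha0⟩ := universal hC
  obtain ⟨a1, ha1⟩ := universal hC.compl
  let x : ℕ → ℕ := fun n => if n % 2 = 0 then a0 (n / 2) else a1 (n / 2)
  have hx0 : ∀ c, x (2 * c + 0) = a0 c := by
    intro c
    have h1 : (2 * c + 0) % 2 = 0 := by omega
    have h2 : (2 * c + 0) / 2 = c := by omega
    simp only [x, h1, h2, if_true]
  have hx1 : ∀ c, x (2 * c + 1) = a1 c := by
    intro c
    have h1 : (2 * c + 1) % 2 = 1 := by omega
    have h2 : (2 * c + 1) / 2 = c := by omega
    simp only [x, h1, h2, one_ne_zero, if_false]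
  have b0 : x ∈ C ↔ ∃ b, ∀ m, InT 0 x (rin b m) := by
    rw [ha0]
    refine exists_congr fun b => ?_
    rw [inT_rin]
    exact forall_congr' fun m => by rw [hx0]
  have b1 : x ∉ C ↔ ∃ b, ∀ m, InT 1 x (rin b m) := by
    have := ha1 x
    rw [mem_compl_iff] at this
    rw [this]
    refine exists_congr fun b => ?_
    rw [inT_rin]
    exact forall_congr' fun m => by rw [hx1]
  by_cases hx : x ∈ C
  · obtain ⟨k, hk⟩ := hx
    obtain ⟨g, hg⟩ := good_of_cond hk
    obtain ⟨b, hb⟩ := b0.1 ⟨k, hk⟩
    exact b1.2 (branch_transport hg hb) ⟨k, hk⟩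
  · rcases hP x with h | ⟨k, hk⟩
    · exact hx h
    · obtain ⟨g, hg⟩ := good_of_cond hk
      obtain ⟨b, hb⟩ := b1.1 hx
      exact hx (b0.2 (branch_transport hg hb))

end Pool.Agent.R732.Unif
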