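import Pool.Agent.R732.Unif.Colour

/-!
# Trees, simulations and a Borel set without Borel uniformization
-/

set_option autoImplicit false

open Set Filter Topology

namespace Pool.Agent.R732.Unif

/-- The initial segment of length `k` of `x`, in reversed order. -/
def rin (x : ℕ → ℕ) : ℕ → List ℕ
  | 0 => []
  | k + 1 => x k :: rin x k

@[simp] theorem rin_zero (x : ℕ → ℕ) : rin x 0 = [] := rfl

@[simp] theorem rin_succ (x : ℕ → ℕ) (k : ℕ) : rin x (k + 1) = x k :: rin x k := rfl

@[simp] theorem rin_length (x : ℕ → ℕ) (k : ℕ) : (rin x k).length = k := by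
  induction k with
  | zero => rfl
  | succ k ih => simp [ih]

theorem rin_eq_iff (x x' : ℕ → ℕ) (k : ℕ) : rin x k = rin x' k ↔ ∀ i, i < k → x i = x' i := by
  induction k with
  | zero => simp
  | succ k ih =>
    rw [rin_succ, rin_succ, List.cons.injEq, ih]
    constructor
    · rintro ⟨h1, h2⟩ i hi
      rcases Nat.lt_succ_iff_lt_or_eq.1 hi with h | h
      · exact h2 i h
      · rw [h]; exact h1
    · intro h
      exact ⟨h k (Nat.lt_succ_self k), fun i hi => h i (Nat.lt_succ_of_lt hi)⟩

/-- The code of a pair of finite sequences. -/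
def code (u v : List ℕ) : ℕ := Encodable.encode (u, v)

theorem code_inj {u v u' v' : List ℕ} (h : code u v = code u' v') : u = u' ∧ v = v' := by
  have := Encodable.encode_injective h
  exact ⟨congrArg Prod.fst this, congrArg Prod.snd this⟩

/-- The code of a finite sequence. -/
def cd (u : List ℕ) : ℕ := Encodable.encode u

/-- The `i`-th tree coded by `x`, evaluated at `x`. -/
def InT (i : ℕ) (x : ℕ → ℕ) : List ℕ → Prop
  | [] => True
  | n :: t => InT i x t ∧ x (2 * code (rin x (t.length + 1)) (n :: t) + i) = 0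

/-- The tree map attached to `g`. -/
def ph (g : ℕ → ℕ) : List ℕ → List ℕ
  | [] => []
  | n :: t => g (cd (n :: t)) :: ph g t

/-- `g` codes a monotone map from the `i`-th tree to the `i'`-th tree. -/
def Good (i i' : ℕ) (x : ℕ → ℕ) (g : ℕ → ℕ) : Prop :=
  ∀ t, InT i x t → InT i' x (ph g t)

theorem ph_dep (t : List ℕ) : ∃ M, ∀ g g' : ℕ → ℕ, (∀ j, j < M → g j = g' j) → ph g t = ph g' t := by
  induction t with
  | nil => exact ⟨0, fun _ _ _ => rfl⟩
  | cons n t ih =>
    obtain ⟨M, hM⟩ := ih
    refine ⟨max M (cd (n :: t) + 1), fun g g' h => ?_⟩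
    simp only [ph]
    rw [hM g g' (fun j hj => h j (lt_of_lt_of_le hj (le_max_left _ _))),
      h _ (lt_of_lt_of_le (Nat.lt_succ_self _) (le_max_right _ _))]

/-! ### Simulations -/

/-- A simulation of one tree by another one. -/
def IsSim (T T' : List ℕ → Prop) (q : List ℕ → List ℕ → Prop) : Prop :=
  ∀ s s', q s s' → ∀ n, T (n :: s) → ∃ m, T' (m :: s') ∧ q (n :: s) (m :: s')

/-- The largest simulation. -/
def Sim (T T' : List ℕ → Prop) (s s' : List ℕ) : Prop := ∃ q, IsSim T T' q ∧ q s s'

theorem sim_isSim (T T' : List ℕ → Prop) : IsSim T T' (Sim T T') := by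
  rintro s s' ⟨q, hq, h⟩ n hn
  obtain ⟨m, hm, h2⟩ := hq s s' h n hn
  exact ⟨m, hm, q, hq, h2⟩

theorem sim_intro {T T' : List ℕ → Prop} {s s' : List ℕ}
    (h : ∀ n, T (n :: s) → ∃ m, T' (m :: s') ∧ Sim T T' (n :: s) (m :: s')) : Sim T T' s s' := by
  refine ⟨fun a b => Sim T T' a b ∨ (a = s ∧ b = s'), ?_, Or.inr ⟨rfl, rfl⟩⟩
  rintro a b (hab | ⟨rfl, rfl⟩) n hn
  · obtain ⟨m, hm, h2⟩ := sim_isSim T T' a b hab n hn
    exact ⟨m, hm, Or.inl h2⟩
  · obtain ⟨m, hm, h2⟩ := h n hn
    exact ⟨m, hm, Or.inl h2⟩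

theorem sim_total (T T' : List ℕ → Prop) : Sim T T' [] [] ∨ Sim T' T [] [] := by
  let r : List ℕ → List ℕ → Prop := fun c s => ∃ n, c = n :: s ∧ T c
  by_cases hwf : Acc r []
  · have key : ∀ s, Acc r s → ∀ s', Sim T T' s s' ∨ Sim T' T s' s := by
      intro s hs
      induction hs with
      | intro s _ ih =>
        intro s'
        by_contra hcon
        rw [not_or] at hcon
        have h1 : ∃ n, T (n :: s) ∧ ∀ m, T' (m :: s') → ¬ Sim T T' (n :: s) (m :: s') := by
          by_contra h
          push Not at h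
          exact hcon.1 (sim_intro h)
        obtain ⟨n, hn, h2⟩ := h1
        apply hcon.2
        apply sim_intro
        intro m hm
        exact ⟨n, hn, (ih (n :: s) ⟨n, rfl, hn⟩ (m :: s')).resolve_left (h2 m hm)⟩
    exact key [] hwf []
  · right
    refine ⟨fun _ s => ¬ Acc r s, ?_, hwf⟩
    intro s' s hs m _
    by_contra hcon
    push Not at hcon
    apply hs
    refine Acc.intro _ ?_
    rintro c ⟨n, rfl, hc⟩
    exact hcon n hc

theorem good_of_sim {i i' : ℕ} {x : ℕ → ℕ} (h : Sim (InT i x) (InT i' x) [] []) :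
    ∃ g, Good i i' x g := by
  classical
  let T := InT i x
  let T' := InT i' x
  let f : List ℕ → List ℕ := fun t => t.rec [] (fun n t ft =>
    (if h : ∃ m, T' (m :: ft) ∧ Sim T T' (n :: t) (m :: ft) then h.choose else 0) :: ft)
  have hf0 : f [] = [] := rfl
  have hf1 : ∀ n t, f (n :: t) =
      (if h : ∃ m, T' (m :: f t) ∧ Sim T T' (n :: t) (m :: f t) then h.choose else 0) :: f t :=
    fun n t => rfl
  let g : ℕ → ℕ := fun c => match (Encodable.decode c : Option (List ℕ)) with
    | some t => (f t).headD 0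
    | none => 0
  have hg : ∀ t, g (cd t) = (f t).headD 0 := by
    intro t
    simp only [g, cd, Encodable.encodek]
  have hph : ∀ t, ph g t = f t := by
    intro t
    induction t with
    | nil => rfl
    | cons n t ih =>
      simp only [ph]
      rw [hg, ih, hf1]
      rfl
  refine ⟨g, fun t ht => ?_⟩
  rw [hph]
  have key : ∀ t, InT i x t → InT i' x (f t) ∧ Sim T T' t (f t) := by
    intro t
    induction t with
    | nil => intro _; exact ⟨trivial, h⟩
    | cons n t ih =>
      intro ht
      obtain ⟨h1, h2⟩ := ih ht.1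
      have h3 := sim_isSim T T' t (f t) h2 n ht
      rw [hf1, dif_pos h3]
      exact h3.choose_spec
  exact (key t ht).1

theorem good_total (x : ℕ → ℕ) : (∃ g, Good 0 1 x g) ∨ (∃ g, Good 1 0 x g) := by
  rcases sim_total (InT 0 x) (InT 1 x) with h | h
  · exact Or.inl (good_of_sim h)
  · exact Or.inr (good_of_sim h)

/-! ### Branches -/

theorem inT_rin (i : ℕ) (x b : ℕ → ℕ) :
    (∀ m, InT i x (rin b m)) ↔ ∀ m, x (2 * code (rin x (m + 1)) (rin b (m + 1)) + i) = 0 := by
  constructor
  · intro h m
    have := (h (m + 1)).2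
    rw [rin_length] at this
    exact this
  · intro h m
    induction m with
    | zero => trivial
    | succ m ih =>
      refine ⟨ih, ?_⟩
      rw [rin_length]
      exact h m

theorem branch_transport {i i' : ℕ} {x g : ℕ → ℕ} (hg : Good i i' x g) {b : ℕ → ℕ}
    (hb : ∀ m, InT i x (rin b m)) : ∃ b', ∀ m, InT i' x (rin b' m) := by
  refine ⟨fun m => g (cd (rin b (m + 1))), fun m => ?_⟩
  have : rin (fun m => g (cd (rin b (m + 1)))) m = ph g (rin b m) := by
    induction m with
    | zero => rfl
    | succ m ih => rw [rin_succ, ih]; rfl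
  rw [this]
  exact hg _ (hb m)

/-- Every Borel set is coded by some `a`. -/
theorem universal {C : Set (ℕ → ℕ)} (hC : MeasurableSet C) :
    ∃ a : ℕ → ℕ, ∀ x, x ∈ C ↔ ∃ b : ℕ → ℕ, ∀ m, a (code (rin x (m + 1)) (rin b (m + 1))) = 0 := by
  classical
  have hA := hC.analyticSet
  rw [MeasureTheory.AnalyticSet] at hA
  rcases hA with h | ⟨f, hf, hr⟩
  · subst h
    refine ⟨fun _ => 1, fun x => ?_⟩
    simp
  · refine ⟨fun c => if ∃ m s, c = code (rin (f s) (m + 1)) (rin s (m + 1)) then 0 else 1,
      fun x => ?_⟩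
    constructor
    · intro hx
      rw [← hr] at hx
      obtain ⟨b, hb⟩ := hx
      refine ⟨b, fun m => ?_⟩
      beta_reduce
      rw [if_pos]
      exact ⟨m, b, by rw [hb]⟩
    · rintro ⟨b, hb⟩
      have h1 : ∀ m, ∃ s, rin x (m + 1) = rin (f s) (m + 1) ∧ rin b (m + 1) = rin s (m + 1) := by
        intro m
        have h := hb m
        have h2 : ∃ m' s, code (rin x (m + 1)) (rin b (m + 1)) =
            code (rin (f s) (m' + 1)) (rin s (m' + 1)) := by
          by_contra hcon
          beta_reduce at h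
          rw [if_neg hcon] at h
          exact one_ne_zero h
        obtain ⟨m', s, hs⟩ := h2
        obtain ⟨h3, h4⟩ := code_inj hs
        have h5 : m + 1 = m' + 1 := by
          have := congrArg List.length h4
          rwa [rin_length, rin_length] at this
        have h6 : m = m' := by omega
        subst h6
        exact ⟨s, h3, h4⟩
      choose s hs1 hs2 using h1
      have hsb : Tendsto s atTop (𝓝 b) := by
        rw [tendsto_pi_nhds]
        intro i
        apply tendsto_const_nhds.congr'
        filter_upwards [eventually_ge_atTop i] with m hm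
        exact (rin_eq_iff b (s m) (m + 1)).1 (hs2 m) i (by omega)
      have hfb : Tendsto (fun m => f (s m)) atTop (𝓝 (f b)) := (hf.tendsto b).comp hsb
      have hfx : Tendsto (fun m => f (s m)) atTop (𝓝 x) := by
        rw [tendsto_pi_nhds]
        intro i
        apply tendsto_const_nhds.congr'
        filter_upwards [eventually_ge_atTop i] with m hm
        exact (rin_eq_iff x (f (s m)) (m + 1)).1 (hs1 m) i (by omega)
      rw [← hr]
      exact ⟨b, tendsto_nhds_unique hfb hfx⟩

end Pool.Agent.R732.Unif
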